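import Pool.Agent.W969.MC.Avg5
import Pool.Agent.Y630.TF.Transfer

/-! Satisfiability of CNF formulas with short clauses: every clause that carries a bit has many
possible places. -/

set_option autoImplicit false
set_option linter.unusedSectionVars false
set_option linter.unusedVariables false

namespace Pool.Agent.Q9h3.US

open Finset Pool.Agent.H560R2 Pool.Agent.W969.MC Pool.Agent.Y630.TF

section

variable {V I : Type} [Fintype V] [DecidableEq V] [Fintype I] [DecidableEq I]
  {n m' k b2 t κ : ℕ}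

/-- the variables: values, chains of comparisons, and copies of their ends -/
abbrev SW (V I : Type) (m' k b2 t κ : ℕ) : Type :=
  (Fin m' × V × Fin t) ⊕
    ((Fin m' × I × Fin k) × (Fin b2 → (Fin t → Bool)) × (Fin (b2 * t + 1) ⊕ Fin κ))

/-- the bits: tuples of values in the copies -/
abbrev Xs (I : Type) (m' k b2 t : ℕ) : Type := Fin m' × (I × ((Fin k × Fin b2) → (Fin t → Bool)))

/-- a link of a chain -/
def ch (b : Fin m' × I × Fin k) (ρ : Fin b2 → (Fin t → Bool)) (l : Fin (b2 * t + 1)) :
    SW V I m' k b2 t κ := Sum.inr (b, ρ, Sum.inl l)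

/-- a copy -/
def cp (b : Fin m' × I × Fin k) (ρ : Fin b2 → (Fin t → Bool)) (e : Fin κ) :
    SW V I m' k b2 t κ := Sum.inr (b, ρ, Sum.inr e)

/-- the clauses that are always present -/
def Fx (ι : SW V I m' k b2 t κ ↪ Fin n) (h : I → (Fin k × Fin b2) → V)
    (c : Finset (Fin n × Bool)) : Prop :=
  (∃ b ρ, c = {(ι (ch b ρ 0), true)}) ∨
  (∃ b ρ, ∃ l : Fin (b2 * t), c = {(ι (ch b ρ l.castSucc), false),
    (ι (Sum.inl (b.1, h b.2.1 (b.2.2, (pos b2 t l).1), (pos b2 t l).2)),
      !(ρ (pos b2 t l).1 (pos b2 t l).2)), (ι (ch b ρ l.succ), true)}) ∨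
  (∃ b ρ e, c = {(ι (ch b ρ (Fin.last _)), false), (ι (cp b ρ e), true)})

open Classical in
/-- the clauses that are always present -/
noncomputable def base (ι : SW V I m' k b2 t κ ↪ Fin n) (h : I → (Fin k × Fin b2) → V) :
    Cla n k → Bool :=
  fun c => decide (Fx ι h c.1)

/-- a place of a bit -/
def plc (ι : SW V I m' k b2 t κ ↪ Fin n) (x : Xs I m' k b2 t) (g : Fin k → Fin κ) :
    Finset (Fin n × Bool) :=
  univ.image (fun s : Fin k => (ι (cp (x.1, x.2.1, s) (fun a => x.2.2 (s, a)) (g s)), false))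

lemma plc_inj (hk : 0 < k) {ι : SW V I m' k b2 t κ ↪ Fin n} {x x' : Xs I m' k b2 t}
    {g g' : Fin k → Fin κ} (hh : plc ι x g = plc ι x' g') : x = x' ∧ g = g' := by
  have key : ∀ s, x.1 = x'.1 ∧ x.2.1 = x'.2.1 ∧ (fun a => x.2.2 (s, a)) = (fun a => x'.2.2 (s, a)) ∧
      g s = g' s := by
    intro s
    have h1 : ((ι (cp (x.1, x.2.1, s) (fun a => x.2.2 (s, a)) (g s)), false) : Fin n × Bool) ∈
        plc ι x' g' := by
      rw [← hh]
      exact Finset.mem_image_of_mem _ (mem_univ s)
    obtain ⟨s', -, h2⟩ := Finset.mem_image.mp h1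
    have h3 := ι.injective (Prod.ext_iff.mp h2).1
    have h4 := Sum.inr.inj h3
    simp only [Prod.mk.injEq, Sum.inr.injEq] at h4
    obtain ⟨⟨h5, h6, rfl⟩, h7, h8⟩ := h4
    exact ⟨h5.symm, h6.symm, h7.symm, h8.symm⟩
  refine ⟨Prod.ext (key ⟨0, hk⟩).1 (Prod.ext (key ⟨0, hk⟩).2.1 ?_), ?_⟩
  · funext sa
    exact congrFun (key sa.1).2.2.1 sa.2
  · funext s
    exact (key s).2.2.2

/-- the clauses that carry bits -/
def slot (hk : 0 < k) (ι : SW V I m' k b2 t κ ↪ Fin n) :
    Xs I m' k b2 t × (Fin k → Fin κ) ↪ Cla n k where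
  toFun z := ⟨plc ι z.1 z.2, by
    unfold plc
    refine Finset.card_image_le.trans ?_
    rw [Finset.card_univ, Fintype.card_fin]⟩
  inj' := by
    rintro ⟨x, g⟩ ⟨x', g'⟩ hh
    have h1 : plc ι x g = plc ι x' g' := congrArg Subtype.val hh
    have h2 := plc_inj hk h1
    exact Prod.ext h2.1 h2.2

variable [NeZero κ] {ι : SW V I m' k b2 t κ ↪ Fin n} {h : I → (Fin k × Fin b2) → V}
  {τ : Xs I m' k b2 t → (Fin k → Fin κ)} {y : Xs I m' k b2 t → Bool}

/-- satisfiability -/
theorem host_sat (hk : 3 ≤ k) :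
    SatF n k (host (slot (by omega : 0 < k) ι) (base ι h) τ y) ↔
      ∀ j, ∃ p : V → (Fin t → Bool), ∀ i, y (j, i, fun a => p (h i a)) = false := by
  classical
  have hk0 : 0 < k := by omega
  constructor
  · rintro ⟨α, hα⟩ j
    have hα' : ∀ c : Finset (Fin n × Bool), c.card ≤ k → Fx ι h c → ∃ p ∈ c, α p.1 = p.2 :=
      fun c hc hx => hα ⟨c, hc⟩ (host_true.mpr (Or.inl (decide_eq_true hx)))
    refine ⟨fun v l => α (ι (Sum.inl (j, v, l))), fun i => ?_⟩
    by_contra hcon
    rw [Bool.not_eq_false] at hcon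
    set σ : (Fin k × Fin b2) → (Fin t → Bool) := fun a l => α (ι (Sum.inl (j, h i a, l))) with hσ
    have hchain : ∀ (s : Fin k) (l : ℕ) (hl : l < b2 * t + 1),
        α (ι (ch (j, i, s) (fun a => σ (s, a)) ⟨l, hl⟩)) = true := by
      intro s l
      induction l with
      | zero =>
        intro hl
        obtain ⟨p, hp, hp'⟩ := hα' {(ι (ch (j, i, s) (fun a => σ (s, a)) 0), true)} (by
          rw [Finset.card_singleton]
          omega) (Or.inl ⟨(j, i, s), _, rfl⟩)
        rw [Finset.mem_singleton.mp hp] at hp'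
        exact hp'
      | succ l ih =>
        intro hl
        have h1 := ih (by omega)
        obtain ⟨p, hp, hp'⟩ := hα' {(ι (ch (j, i, s) (fun a => σ (s, a))
            (⟨l, by omega⟩ : Fin (b2 * t)).castSucc), false),
          (ι (Sum.inl (j, h i (s, (pos b2 t ⟨l, by omega⟩).1), (pos b2 t ⟨l, by omega⟩).2)),
            !(σ (s, (pos b2 t ⟨l, by omega⟩).1) (pos b2 t ⟨l, by omega⟩).2)),
          (ι (ch (j, i, s) (fun a => σ (s, a)) (⟨l, by omega⟩ : Fin (b2 * t)).succ), true)}
          (Finset.card_le_three.trans hk)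
          (Or.inr (Or.inl ⟨(j, i, s), (fun a => σ (s, a)), ⟨l, by omega⟩, rfl⟩))
        rw [Finset.mem_insert, Finset.mem_insert, Finset.mem_singleton] at hp
        rcases hp with rfl | rfl | rfl
        · have h2 : α (ι (ch (j, i, s) (fun a => σ (s, a)) ⟨l, by omega⟩)) = false := hp'
          rw [h1] at h2
          exact absurd h2 (by simp)
        · simp [hσ] at hp'
        · exact hp'
    have hcopy : ∀ (s : Fin k) (e : Fin κ),
        α (ι (cp (j, i, s) (fun a => σ (s, a)) e)) = true := by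
      intro s e
      obtain ⟨p, hp, hp'⟩ := hα' {(ι (ch (j, i, s) (fun a => σ (s, a)) (Fin.last _)), false),
        (ι (cp (j, i, s) (fun a => σ (s, a)) e), true)} (Finset.card_le_two.trans (by omega))
        (Or.inr (Or.inr ⟨(j, i, s), _, e, rfl⟩))
      rw [Finset.mem_insert, Finset.mem_singleton] at hp
      rcases hp with rfl | rfl
      · have h2 : α (ι (ch (j, i, s) (fun a => σ (s, a)) (Fin.last _))) = false := hp'
        have h3 := hchain s (b2 * t) (by omega)
        have h4 : (⟨b2 * t, by omega⟩ : Fin (b2 * t + 1)) = Fin.last _ := rfl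
        rw [h4, h2] at h3
        exact absurd h3 (by simp)
      · exact hp'
    have hy : y (j, i, σ) = true := hcon
    obtain ⟨p, hp, hp'⟩ := hα (slot hk0 ι ((j, i, σ), τ (j, i, σ)))
      (host_true.mpr (Or.inr ⟨(j, i, σ), hy, rfl⟩))
    have hp2 : p ∈ plc ι (j, i, σ) (τ (j, i, σ)) := hp
    obtain ⟨s, -, rfl⟩ := Finset.mem_image.mp hp2
    have h3 : α (ι (cp (j, i, s) (fun a => σ (s, a)) (τ (j, i, σ) s))) = false := hp'
    rw [hcopy] at h3
    exact absurd h3 (by simp)
  · intro hj
    choose p hp using hj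
    let vl : SW V I m' k b2 t κ → Bool := fun z => Sum.elim (fun q => p q.1 q.2.1 q.2.2)
      (fun q => decide (∀ l' : Fin (b2 * t), l'.val < Sum.elim (fun l => l.val)
        (fun _ => b2 * t) q.2.2 → q.2.1 (pos b2 t l').1 (pos b2 t l').2 =
          p q.1.1 (h q.1.2.1 (q.1.2.2, (pos b2 t l').1)) (pos b2 t l').2)) z
    let α : Fin n → Bool := fun v => if hv : ∃ z, ι z = v then vl hv.choose else false
    have hα : ∀ z, α (ι z) = vl z := by
      intro z
      have hv : ∃ z', ι z' = ι z := ⟨z, rfl⟩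
      simp only [α, dif_pos hv]
      rw [ι.injective hv.choose_spec]
    refine ⟨α, fun c hc => ?_⟩
    rcases host_true.mp hc with h1 | ⟨x, hx, h1⟩
    · have h2 : Fx ι h c.1 := of_decide_eq_true h1
      rcases h2 with ⟨b, ρ, h2⟩ | ⟨b, ρ, l, h2⟩ | ⟨b, ρ, e, h2⟩
      · rw [h2]
        refine ⟨_, Finset.mem_singleton_self _, ?_⟩
        rw [hα]
        apply decide_eq_true
        intro l' hl'
        exact absurd hl' (Nat.not_lt_zero _)
      · rw [h2]
        by_cases hA : vl (ch b ρ l.castSucc) = true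
        · by_cases hB : ρ (pos b2 t l).1 (pos b2 t l).2 =
              p b.1 (h b.2.1 (b.2.2, (pos b2 t l).1)) (pos b2 t l).2
          · refine ⟨(ι (ch b ρ l.succ), true), by simp, ?_⟩
            rw [hα]
            apply decide_eq_true
            intro l' hl'
            have hA' := of_decide_eq_true hA
            rcases Nat.lt_or_ge l'.val l.val with h3 | h3
            · exact hA' l' h3
            · have h4 : l' = l := by
                apply Fin.ext
                have h5 : l'.val < l.val + 1 := hl'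
                omega
              rw [h4]
              exact hB
          · refine ⟨(ι (Sum.inl (b.1, h b.2.1 (b.2.2, (pos b2 t l).1), (pos b2 t l).2)),
              !(ρ (pos b2 t l).1 (pos b2 t l).2)), by simp, ?_⟩
            rw [hα]
            show p b.1 (h b.2.1 (b.2.2, (pos b2 t l).1)) (pos b2 t l).2 =
              !(ρ (pos b2 t l).1 (pos b2 t l).2)
            rcases h5 : ρ (pos b2 t l).1 (pos b2 t l).2 with _ | _ <;>
              rcases h6 : p b.1 (h b.2.1 (b.2.2, (pos b2 t l).1)) (pos b2 t l).2 with _ | _ <;>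
              simp_all
        · refine ⟨(ι (ch b ρ l.castSucc), false), by simp, ?_⟩
          rw [hα]
          exact Bool.eq_false_iff.mpr hA
      · rw [h2]
        by_cases hA : vl (ch b ρ (Fin.last _)) = true
        · refine ⟨(ι (cp b ρ e), true), by simp, ?_⟩
          rw [hα]
          exact hA
        · refine ⟨(ι (ch b ρ (Fin.last _)), false), by simp, ?_⟩
          rw [hα]
          exact Bool.eq_false_iff.mpr hA
    · have h2 : c.1 = plc ι x (τ x) := by rw [← h1]; rfl
      rw [h2]
      have h3 : ∃ a, x.2.2 a ≠ p x.1 (h x.2.1 a) := by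
        by_contra hcon
        push Not at hcon
        have h4 : x = (x.1, x.2.1, fun a => p x.1 (h x.2.1 a)) := by
          refine Prod.ext rfl (Prod.ext rfl ?_)
          funext a
          exact hcon a
        have h5 := hp x.1 x.2.1
        rw [← h4, hx] at h5
        exact absurd h5 (by simp)
      obtain ⟨⟨s, a⟩, h3⟩ := h3
      obtain ⟨l, h4⟩ := Function.ne_iff.mp h3
      refine ⟨(ι (cp (x.1, x.2.1, s) (fun a => x.2.2 (s, a)) (τ x s)), false),
        Finset.mem_image_of_mem _ (mem_univ s), ?_⟩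
      rw [hα]
      apply decide_eq_false
      intro hall
      have h5 := hall (finProdFinEquiv (a, l)) (Fin.isLt _)
      have h6 : pos b2 t (finProdFinEquiv (a, l)) = (a, l) := by
        unfold pos
        rw [Equiv.symm_apply_apply]
      rw [h6] at h5
      exact h4 h5

end

end Pool.Agent.Q9h3.US
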