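import Pool.Agent.Q9h3.US.Gad
import Pool.Agent.Q9h3.UC.Low

/-! Satisfiability of CNF formulas with short clauses, circuits whose negated inputs are unreliable:
the lower bound with integer parameters. -/

set_option autoImplicit false
set_option linter.unusedSectionVars false
set_option linter.unusedVariables false

namespace Pool.Agent.Q9h3.US

open Finset Pool.Agent.H560R2 Pool.Agent.W969.MC Pool.Agent.Y630.TF Pool.Agent.Y630.NW
open Pool.Agent.Q9h3.UC (encC encC_true encC_mono encC_narrow mem_tu_gr)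

/-- the lower bound with integer parameters -/
theorem sat_fault_param {n r κ D : ℕ} {R : Type} [Fintype R] [Nonempty R]
    {b2 b t M m s w m' : ℕ} (hr : 3 ≤ r) (P : Pars r b2 b (2 ^ t) M m s w)
    (hκ : 0 < κ) (hD : 0 < D)
    (hn : m' * (m * t) + m' * (M * r) * ((2 ^ t) ^ b2 * (b2 * t + 1 + κ)) ≤ n)
    (C : R → RC (Cla n r × Bool)) (hT : ∀ ρ, (C ρ).T = ∅) (A0 g : ℝ)
    (hbad : ((m' * (M * (2 ^ t) ^ (r * b2)) : ℕ) : ℝ) * (1 - 1 / (D : ℝ)) ^ (κ ^ r) ≤ g / 2)
    (hyes : ∀ x : Cla n r → Bool, ¬ SatF n r x →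
      (A0 + g) * (Fintype.card R * (D : ℝ) ^ Fintype.card (Cla n r)) ≤
        ({z : R × (Cla n r → Fin D) | (C z.1).acc (lit x (Flt z.2))}.ncard : ℝ))
    (hno : ∀ x : Cla n r → Bool, SatF n r x →
      ({ρ : R | (C ρ).acc (lit x ∅)}.ncard : ℝ) ≤ A0 * Fintype.card R)
    (hm' : 1 ≤ g / 2 / 2 * m')
    (hlen : ∀ ρ, (C ρ).S ≤ (2 ^ t + 1) ^ m) (hq : 16 / ((2 ^ t : ℕ) : ℝ) ≤ g / 2)
    (hlt : ∀ ρ, 16 * ((C ρ).S : ℝ) * 2 ^ (w / (2 * b) / b + 1) <
      g / 2 * ((2 ^ t : ℕ) : ℝ) ^ (w / (2 * b) / b + 1)) : False := by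
  classical
  obtain ⟨h, hG0⟩ := P.good
  have hΛ : Fintype.card (Fin t → Bool) = 2 ^ t := by
    rw [Fintype.card_fun, Fintype.card_bool, Fintype.card_fin]
  have hG : Good h (Fin t → Bool) b s w := by
    have hc : Fintype.card (Fin t → Bool) = Fintype.card (Fin (2 ^ t)) := by
      rw [hΛ, Fintype.card_fin]
    refine ⟨hG0.hb, hG0.hA, hG0.hE, hG0.hw, hG0.hws, hG0.hV, hG0.hI, ?_, ?_⟩
    · rw [hc]; exact hG0.hq
    · rw [hc]; exact hG0.hstar
  have hrpos : 0 < r := by omega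
  have _ : NeZero κ := ⟨hκ.ne'⟩
  have : Nonempty (Fin r × Fin b2) := ⟨(⟨0, hrpos⟩, ⟨0, P.hb2⟩)⟩
  have hcardV : Fintype.card (SW (Fin m) (Fin M) m' r b2 t κ) =
      m' * (m * t) + m' * (M * r) * ((2 ^ t) ^ b2 * (b2 * t + 1 + κ)) := by
    simp only [Fintype.card_sum, Fintype.card_prod, Fintype.card_fin, Fintype.card_fun,
      Fintype.card_bool]
  have hcard : Fintype.card (SW (Fin m) (Fin M) m' r b2 t κ) ≤ Fintype.card (Fin n) := by
    rw [hcardV, Fintype.card_fin]
    exact hn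
  obtain ⟨ι⟩ := Function.Embedding.nonempty_of_card_le hcard
  have hMpos : 0 < M := by
    have := P.hM
    have := P.hm
    omega
  have hm'pos : 0 < m' := by
    rcases Nat.eq_zero_or_pos m' with h0 | h0
    · rw [h0] at hm'
      norm_num at hm'
    · exact h0
  have x0 : Xs (Fin M) m' r b2 t := (⟨0, hm'pos⟩, ⟨0, hMpos⟩, fun _ _ => false)
  -- the circuits on the bits
  have hex : ∀ ω : R × (Xs (Fin M) m' r b2 t → (Fin r → Fin κ)),
      ∃ C' : RC (Xs (Fin M) m' r b2 t), C'.size = (C ω.1).S ∧ C'.free = 1 ∧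
        ∀ y, C'.acc y ↔ (C ω.1).acc (rlit (slot hrpos ι) (base ι h) ω.2 y) := by
    intro ω
    obtain ⟨σ, c, hσ⟩ := Pool.Agent.Y630.TR.rlit_lsb (slot hrpos ι) (base ι h) ω.2
    obtain ⟨C', hsize, hfree, -, hacc⟩ := subst (C ω.1) x0 σ c
    refine ⟨C', ?_, ?_, fun y => ?_⟩
    · rw [hsize]
      unfold RC.size
      rw [hT ω.1, Finset.sum_empty, Nat.add_zero]
    · rw [hfree]
      unfold RC.free
      rw [hT ω.1, Finset.prod_empty]
    · rw [hacc, hσ]
      rfl
  choose C' hsize hfree hacc using hex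
  refine csp_rand_dual hG (m' := m') C' encC (fun y y' hy => encC_mono hy)
    (fun y J x => encC_narrow y J x) A0 (g / 2) ?_ ?_ ?_ ?_ ?_ ?_
  · rintro y ⟨j, hj⟩
    have h3 := transfer_yes (slot hrpos ι) (base ι h) hD
      (fun ρ v => (C ρ).acc v) (fun ρ u v huv hu => acc_mono _ (hT ρ) huv hu) A0 g
      (by
        rw [Fintype.card_fun, Fintype.card_fin, Fintype.card_fin]
        have h4 : Fintype.card (Xs (Fin M) m' r b2 t) = m' * (M * (2 ^ t) ^ (r * b2)) := by
          simp only [Fintype.card_prod, Fintype.card_fin, Fintype.card_fun, Fintype.card_bool]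
        rw [h4]
        exact hbad) (encC y) (fun τ => hyes _ (by
          rw [host_sat (by omega)]
          intro hcon
          obtain ⟨p, hp⟩ := hcon j
          obtain ⟨u, hu1, hu2⟩ := hj p
          have h5 := hp u.1
          have h6 := mem_tu_gr.mp hu1
          rw [← h6, ← Bool.not_eq_true, encC_true] at h5
          exact h5 hu2))
    refine h3.trans (le_of_eq ?_)
    congr 2
    ext ω
    exact (hacc ω _).symm
  · intro y hy
    push Not at hy
    have h3 := transfer_no (slot hrpos ι) (base ι h)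
      (fun ρ v => (C ρ).acc v) (fun ρ u v huv hu => acc_mono _ (hT ρ) huv hu) A0 (encC y)
      (fun τ => hno _ (by
        rw [host_sat (by omega)]
        intro j
        obtain ⟨p, hp⟩ := hy j
        refine ⟨p, fun i => ?_⟩
        rw [← Bool.not_eq_true, encC_true]
        exact hp (i, fun a => p (h i a)) (mem_tu_gr.mpr rfl)))
    refine (le_of_eq ?_).trans h3
    congr 2
    ext ω
    exact hacc ω _
  · intro ω
    rw [hfree, Nat.cast_one]
    exact hm'
  · intro ω
    rw [hsize, hΛ, Fintype.card_fin]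
    exact hlen ω.1
  · rw [hΛ]
    exact hq
  · intro ω
    rw [hsize, hΛ]
    exact hlt ω.1

end Pool.Agent.Q9h3.US
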