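import Pool.Agent.Q9h3.US.Low
import Pool.Agent.Q9h3.UC.Main

/-! Satisfiability of CNF formulas with short clauses, circuits whose negated inputs are unreliable:
the lower bound. -/

set_option autoImplicit false
set_option linter.unusedSectionVars false
set_option linter.unusedVariables false

namespace Pool.Agent.Q9h3.US

open Finset Pool.Agent.H560R2 Pool.Agent.W969.MC Pool.Agent.Y630.TF Pool.Agent.Y630.NW
open Pool.Agent.Q9h3.UN (places card_bits)
open Pool.Agent.Q9h3.UC (choose_n2)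

/-- the lower bound -/
theorem sat_fault (r : ℕ) (hr3 : 3 ≤ r) (ε : ℝ) (hε : 0 < ε) :
    ∃ δ : ℝ, 0 < δ ∧ ∃ ν0 : ℕ, ∀ ν N D : ℕ, ν0 ≤ ν → 0 < D → D * ν ^ r ≤ N ^ r →
      ∀ (R : Type) [Fintype R] [Nonempty R] (C : R → RC (Cla N r × Bool))
        (A0 : ℝ) (s : ℕ), (∀ ρ, (C ρ).T = ∅) → (∀ ρ, (C ρ).S ≤ s) →
        (∀ x : Cla N r → Bool, ¬ SatF N r x → (A0 + (ν : ℝ) ^ (-δ)) *
          (Fintype.card R * (D : ℝ) ^ Fintype.card (Cla N r)) ≤
          ({z : R × (Cla N r → Fin D) | (C z.1).acc (lit x (Flt z.2))}.ncard : ℝ)) →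
        (∀ x : Cla N r → Bool, SatF N r x →
          ({ρ : R | (C ρ).acc (lit x ∅)}.ncard : ℝ) ≤ A0 * Fintype.card R) →
        (ν : ℝ) ^ (δ * (ν : ℝ) ^ ((r : ℝ) / (r + 1) - ε)) ≤ s := by
  -- it suffices to consider small ε
  wlog hε1 : ε ≤ 1 / 2 with Hw
  · obtain ⟨δ, hδ, ν0, H⟩ := Hw r hr3 (1 / 2) (by norm_num) le_rfl
    refine ⟨δ, hδ, max ν0 1, ?_⟩
    intro ν N D hν hD hDN R _ _ C A0 s hT hs hyes hno
    refine le_trans ?_ (H ν N D ((le_max_left _ _).trans hν) hD hDN R C A0 s hT hs hyes hno)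
    have h1 : (1 : ℝ) ≤ ν := by exact_mod_cast (le_max_right _ _).trans hν
    apply Real.rpow_le_rpow_of_exponent_le h1
    apply mul_le_mul_of_nonneg_left _ hδ.le
    apply Real.rpow_le_rpow_of_exponent_le h1
    push Not at hε1
    linarith
  have hr : 2 ≤ r := by omega
  have hrpos : 0 < r := by omega
  have hrR : (2 : ℝ) ≤ r := by exact_mod_cast hr
  have hrRpos : (0 : ℝ) < r := by linarith
  obtain ⟨b2, hb2, δ, hδ, l0, H⟩ := pars_exist2 r hr (ε / 3) (by positivity)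
  obtain ⟨l1, Hab⟩ := absorb hδ
  obtain ⟨k0, Hk⟩ := choose_l r hr (ε / 3) (by positivity) (max l0 (max l1 1))
  obtain ⟨ν0, Hn⟩ := choose_n2 hε hε1 hδ r hr k0
  set c1 : ℝ := b2 * (2 * (2 / (ε / 12) + 1)) with hc1
  obtain ⟨a1, ha1⟩ := ev_rpow (η := ε / 12) (by positivity) c1
  refine ⟨δ / 16, by positivity, max (max ν0 a1) 1, ?_⟩
  intro ν N D hν hD hDN R _ _ C A0 s hT hs hyes hno
  have hν0 : ν0 ≤ ν := (le_max_left _ _).trans ((le_max_left _ _).trans hν)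
  have hνa : a1 ≤ ν := (le_max_right _ _).trans ((le_max_left _ _).trans hν)
  have hν1 : 1 ≤ ν := (le_max_right _ _).trans hν
  have hνR : (1 : ℝ) ≤ ν := by exact_mod_cast hν1
  have hνpos : (0 : ℝ) < ν := by linarith
  have hνN : ν ≤ N := by
    have h1 : ν ^ r ≤ N ^ r := (Nat.le_mul_of_pos_left _ hD).trans hDN
    exact (Nat.pow_le_pow_iff_left hrpos.ne').mp h1
  have hNR : (ν : ℝ) ≤ N := by exact_mod_cast hνN
  have hNpos : (0 : ℝ) < N := by linarith
  set γ : ℝ := (r : ℝ) / (r + 1) with hγ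
  have hγ1 : γ ≤ 1 := by
    rw [hγ, div_le_one (by positivity)]
    linarith
  have hγ0 : 0 < γ := by rw [hγ]; positivity
  obtain ⟨n, k', hk'0, hk'k, hk'n, hL1, hnν, hn1, hnN, hnhalf, hgap, hmin, hnup⟩ :=
    Hn ν N N hν0 (hν0.trans hνN) hνN
  obtain ⟨l, hl, hlk, -, hln, hminl⟩ := Hk n k' hk'0 hk'n
  have hnR : (1 : ℝ) ≤ n := by exact_mod_cast hn1
  have hnpos : (0 : ℝ) < n := by linarith
  have hll0 : l0 ≤ l := (le_max_left _ _).trans hl
  have hll1 : l1 ≤ l := (le_max_left _ _).trans ((le_max_right _ _).trans hl)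
  have hl1 : 1 ≤ l := (le_max_right _ _).trans ((le_max_right _ _).trans hl)
  have hlR : (1 : ℝ) ≤ l := by exact_mod_cast hl1
  obtain ⟨b, q, M, m, s', w, m', f1, f2, f3, f4, f5⟩ := H n l hll0 hln
  set t : ℕ := Nat.log 2 q with ht
  have hq0 : q ≠ 0 := by omega
  have ht1 : 2 ^ t ≤ q := Nat.pow_log_le_self 2 hq0
  have ht2 : q ≤ 2 * 2 ^ t := by
    have h1 : q < 2 ^ (t + 1) := Nat.lt_pow_succ_log_self (by norm_num) q
    rw [pow_succ] at h1
    omega
  obtain ⟨P, f6⟩ := f5 (2 ^ t) ht1 ht2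
  have hmM : m ≤ M := by
    have := P.hM
    omega
  have hMpos : 0 < M := by
    have := P.hm
    omega
  have hnδ1 : (1 : ℝ) ≤ (n : ℝ) ^ δ := Real.one_le_rpow hnR hδ.le
  have hm'pos : 0 < m' := by
    have h5 : (1 : ℝ) ≤ m' := hnδ1.trans f3
    exact_mod_cast h5
  have h2 : 2 * (m' * (M * (r * (2 ^ t) ^ b2))) ≤ n := by
    refine le_trans ?_ f2
    apply Nat.mul_le_mul_left
    apply Nat.mul_le_mul_left
    apply Nat.mul_le_mul_left
    apply Nat.mul_le_mul_left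
    exact Nat.pow_le_pow_left ht1 b2
  have hlnN : l ≤ n := by
    have h1 : (l : ℝ) ≤ n := by
      refine le_trans ?_ hln
      calc (l : ℝ) = (l : ℝ) ^ (1 : ℝ) := (Real.rpow_one _).symm
        _ ≤ _ := by
          apply Real.rpow_le_rpow_of_exponent_le hlR
          have h3 : 0 < 1 / (r : ℝ) := by positivity
          linarith
    exact_mod_cast h1
  have hj0 := P.j0_le hr f1
  obtain ⟨g1, g2, g3⟩ := Hab n l (2 ^ t) m (w / (2 * b) / b + 1) hll1 hlnN
    (Nat.le_add_left 1 _) hj0 f6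
  -- the number of places
  set L : ℝ := (r + δ) * Real.log ν with hL
  set κ : ℕ := ⌈(N : ℝ) / ν * L⌉₊ with hκdef
  have hκ1 : (N : ℝ) / ν * L ≤ κ := Nat.le_ceil _
  have hκ2 : (κ : ℝ) ≤ N / ν * L + 1 := (Nat.ceil_lt_add_one (by positivity)).le
  have hκpos : 0 < κ := by
    rw [hκdef, Nat.ceil_pos]
    positivity
  have hκD : (D : ℝ) * L ≤ (κ : ℝ) ^ r := by
    have h5 : (D : ℝ) ≤ (N / ν) ^ r := by
      rw [div_pow, le_div_iff₀ (by positivity)]
      exact_mod_cast hDN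
    have h6 : L ≤ L ^ r := le_self_pow₀ hL1 hrpos.ne'
    calc (D : ℝ) * L ≤ (N / ν) ^ r * L ^ r :=
          mul_le_mul h5 h6 (by positivity) (by positivity)
      _ = (N / ν * L) ^ r := (mul_pow _ _ _).symm
      _ ≤ (κ : ℝ) ^ r := pow_le_pow_left₀ (by positivity) hκ1 r
  have hbad := places (X := m' * (M * (2 ^ t) ^ (r * b2))) (δ := δ / 4) (L := L) hD hn1
    (card_bits hrpos hm'pos hMpos h2) (by
      have h5 : Real.log n ≤ Real.log ν := Real.log_le_log hnpos (by exact_mod_cast hnν)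
      have h6 : 0 ≤ Real.log n := Real.log_nonneg hnR
      have h7 : 0 ≤ Real.log ν := Real.log_nonneg hνR
      rw [hL]
      calc ((r : ℝ) + δ / 4) * Real.log n ≤ (r + δ) * Real.log n := by
            apply mul_le_mul_of_nonneg_right _ h6
            linarith
        _ ≤ (r + δ) * Real.log ν := mul_le_mul_of_nonneg_left h5 (by positivity)) hκD
  have hnκ : n * κ ≤ N := by
    have h5 : ((n * κ : ℕ) : ℝ) ≤ N := by
      push_cast
      exact (mul_le_mul_of_nonneg_left hκ2 hnpos.le).trans hnN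
    exact_mod_cast h5
  -- the number of variables
  set B : ℕ := m' * (M * r) with hB
  have htn : (b2 : ℝ) * t + 2 ≤ c1 * (ν : ℝ) ^ (ε / 12) := by
    have h5 : q ≤ n := by
      have h10 : q ≤ m' * (M * (r * q ^ b2)) := by
        calc q ≤ q ^ b2 := Nat.le_self_pow (by omega) _
          _ ≤ r * q ^ b2 := Nat.le_mul_of_pos_left _ (by omega)
          _ ≤ M * (r * q ^ b2) := Nat.le_mul_of_pos_left _ (by omega)
          _ ≤ m' * (M * (r * q ^ b2)) := Nat.le_mul_of_pos_left _ (by omega)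
      omega
    have h6 : t ≤ Nat.log 2 n := Nat.log_mono_right h5
    have h7 : (t : ℝ) ≤ Nat.log 2 n := by exact_mod_cast h6
    have h8 := natlog_le (η := ε / 12) (by positivity) hn1
    have h9 : (0 : ℝ) ≤ Nat.log 2 n := Nat.cast_nonneg _
    have h10 : (t : ℝ) + 2 ≤ 2 * ((2 / (ε / 12) + 1) * (n : ℝ) ^ (ε / 12)) := by linarith
    have h11 : (n : ℝ) ^ (ε / 12) ≤ (ν : ℝ) ^ (ε / 12) :=
      Real.rpow_le_rpow hnpos.le (by exact_mod_cast hnν) (by positivity)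
    have hb2R : (1 : ℝ) ≤ b2 := by exact_mod_cast hb2
    have h12 : (t : ℝ) + 2 ≤ 2 * ((2 / (ε / 12) + 1) * (ν : ℝ) ^ (ε / 12)) :=
      h10.trans (mul_le_mul_of_nonneg_left (mul_le_mul_of_nonneg_left h11 (by positivity))
        (by norm_num))
    calc (b2 : ℝ) * t + 2 ≤ b2 * (t + 2) := by nlinarith
      _ ≤ b2 * (2 * ((2 / (ε / 12) + 1) * (ν : ℝ) ^ (ε / 12))) :=
          mul_le_mul_of_nonneg_left h12 (by positivity)
      _ = c1 * (ν : ℝ) ^ (ε / 12) := by rw [hc1]; ring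
  have hnb : n * (b2 * t + 2) ≤ N := by
    have h5 : (b2 : ℝ) * t + 2 ≤ (ν : ℝ) ^ (ε / 3) := by
      refine htn.trans ?_
      calc c1 * (ν : ℝ) ^ (ε / 12) ≤ (ν : ℝ) ^ (ε / 12) * (ν : ℝ) ^ (ε / 12) :=
            mul_le_mul_of_nonneg_right (ha1 ν hνa) (by positivity)
        _ = (ν : ℝ) ^ (ε / 12 + ε / 12) := by rw [← Real.rpow_add hνpos]
        _ ≤ (ν : ℝ) ^ (ε / 3) := Real.rpow_le_rpow_of_exponent_le hνR (by linarith)
    have h6 : ((n * (b2 * t + 2) : ℕ) : ℝ) ≤ N := by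
      push_cast
      calc (n : ℝ) * (b2 * t + 2) ≤ (ν : ℝ) ^ (1 - ε / 3) * (ν : ℝ) ^ (ε / 3) :=
            mul_le_mul hnup h5 (by positivity) (by positivity)
        _ = ν := by
            rw [← Real.rpow_add hνpos]
            have : 1 - ε / 3 + ε / 3 = (1 : ℝ) := by ring
            rw [this, Real.rpow_one]
        _ ≤ N := hNR
    exact_mod_cast h6
  have hvar : m' * (m * t) + B * ((2 ^ t) ^ b2 * (b2 * t + 1 + κ)) ≤ N := by
    have e1 : m' * (m * t) ≤ m' * (M * (r * (2 ^ t) ^ b2)) := by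
      apply Nat.mul_le_mul_left
      apply Nat.mul_le_mul hmM
      calc t ≤ 2 ^ t := Nat.lt_two_pow_self.le
        _ ≤ (2 ^ t) ^ b2 := Nat.le_self_pow (by omega) _
        _ ≤ r * (2 ^ t) ^ b2 := Nat.le_mul_of_pos_left _ hrpos
    set W := m' * (M * (r * (2 ^ t) ^ b2)) with hW
    have e2 : B * ((2 ^ t) ^ b2 * (b2 * t + 1 + κ)) = W * (b2 * t + 1 + κ) := by
      rw [hB, hW]
      ring
    rw [e2]
    have e3 : 2 * (m' * (m * t) + W * (b2 * t + 1 + κ)) ≤ 2 * N := by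
      calc 2 * (m' * (m * t) + W * (b2 * t + 1 + κ)) ≤ 2 * (W + W * (b2 * t + 1 + κ)) := by
            omega
        _ = (2 * W) * (b2 * t + 2) + (2 * W) * κ := by ring
        _ ≤ n * (b2 * t + 2) + n * κ :=
            Nat.add_le_add (Nat.mul_le_mul_right _ h2) (Nat.mul_le_mul_right _ h2)
        _ ≤ 2 * N := by omega
    omega
  by_contra hcon
  push Not at hcon
  have hsz : (s : ℝ) < (n : ℝ) ^ (δ / 4 * l) := by
    refine lt_of_lt_of_le hcon ?_
    have h5 : (ν : ℝ) ^ (γ - ε) ≤ l := by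
      refine le_trans ?_ (hmin.trans hminl)
      refine le_min ?_ le_rfl
      refine le_trans ?_ hNR
      calc (ν : ℝ) ^ (γ - ε) ≤ (ν : ℝ) ^ (1 : ℝ) :=
            Real.rpow_le_rpow_of_exponent_le hνR (by linarith)
        _ = ν := Real.rpow_one _
    calc (ν : ℝ) ^ (δ / 16 * (ν : ℝ) ^ (γ - ε)) ≤
          (ν : ℝ) ^ ((1 / 2 : ℝ) * (δ / 4 * l)) := by
          apply Real.rpow_le_rpow_of_exponent_le hνR
          have h7 : (0 : ℝ) ≤ l := Nat.cast_nonneg _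
          nlinarith
      _ = ((ν : ℝ) ^ (1 / 2 : ℝ)) ^ (δ / 4 * l) := by rw [← Real.rpow_mul hνpos.le]
      _ ≤ (n : ℝ) ^ (δ / 4 * l) := Real.rpow_le_rpow (by positivity) hnhalf (by positivity)
  refine sat_fault_param (m' := m') (g := 2 * (n : ℝ) ^ (-(δ / 4))) hr3 P hκpos hD
    hvar C hT A0 ?_ ?_ hno ?_ ?_ ?_ ?_
  · refine hbad.trans (le_of_eq ?_)
    ring
  · intro x hx
    refine le_trans ?_ (hyes x hx)
    apply mul_le_mul_of_nonneg_right _ (by positivity)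
    linarith
  · have h5 := g2 m' f3
    have h6 : (1 : ℝ) ≤ (n : ℝ) ^ (δ / 4) := Real.one_le_rpow hnR (by positivity)
    linarith
  · intro ρ
    refine (hs ρ).trans (g3 s hsz).1
  · have h5 : 2 * (n : ℝ) ^ (-(δ / 4)) / 2 = (n : ℝ) ^ (-(δ / 4)) := by ring
    rw [h5]
    exact g1
  · intro ρ
    have h5 := (g3 s hsz).2
    have h6 : ((C ρ).S : ℝ) ≤ s := by exact_mod_cast hs ρ
    have h7 : 16 * ((C ρ).S : ℝ) * 2 ^ (w / (2 * b) / b + 1) ≤
        16 * (s : ℝ) * 2 ^ (w / (2 * b) / b + 1) := by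
      apply mul_le_mul_of_nonneg_right _ (by positivity)
      linarith
    have h8 : 2 * (n : ℝ) ^ (-(δ / 4)) / 2 = (n : ℝ) ^ (-(δ / 4)) := by ring
    rw [h8]
    exact lt_of_le_of_lt h7 h5

end Pool.Agent.Q9h3.US
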